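import Pool.Agent.W254.HP.Gen

set_option autoImplicit false

/-!
# The basic inequality: products of independent numbers with a space near the logarithms
-/

namespace Pool.Agent.TH379.PER

open Module
open Pool.Agent.H301R2.SSE (QB mem_QB Lt Lt_rep Lt_mul Lt_alg Lt_log)
open Pool.Agent.W254.HP

/-- dimension count in a product -/
theorem pi_kernel {k V Z W : Type*} [Field k] [AddCommGroup V] [Module k V] [AddCommGroup Z]
    [Module k Z] [AddCommGroup W] [Module k W] [FiniteDimensional k V] [FiniteDimensional k Z]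
    [FiniteDimensional k W] {d : ℕ} (Θ : (Fin d → V) →ₗ[k] (Z × (Fin d → W))) :
    d * finrank k V ≤ finrank k (LinearMap.ker Θ) + finrank k Z + d * finrank k W := by
  have hrn := LinearMap.finrank_range_add_finrank_ker Θ
  have h1 := Submodule.finrank_le (LinearMap.range Θ)
  rw [Module.finrank_prod, Module.finrank_pi_fintype, Finset.sum_const, Finset.card_univ,
    Fintype.card_fin, smul_eq_mul] at h1
  rw [Module.finrank_pi_fintype, Finset.sum_const, Finset.card_univ, Fintype.card_fin,
    smul_eq_mul] at hrn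
  omega

/-- **Basic inequality.** If `x 1, ..., x d` are linearly independent over the algebraic numbers,
`x i * V ⊆ Z` and `V` is contained in the sum of the space of linear forms in logarithms and of a
finite dimensional space `Γ`, then `d dim V ≤ dim Z + d (d - 1) + d dim Γ`. -/
theorem core {d : ℕ} (x : Fin d → ℂ) (hx : LinearIndependent QB x) (V Z Γ : Submodule QB ℂ)
    [FiniteDimensional QB V] [FiniteDimensional QB Z] [FiniteDimensional QB Γ]
    (hZ : ∀ i, ∀ v ∈ V, x i * v ∈ Z) (hV : V ≤ Lt ⊔ Γ) :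
    d * finrank QB V ≤ finrank QB Z + d * (d - 1) + d * finrank QB Γ := by
  classical
  -- the quotient part
  let W : Submodule QB (ℂ ⧸ Lt) := V.map Lt.mkQ
  have hW : finrank QB W ≤ finrank QB Γ := by
    have h1 : W ≤ Γ.map Lt.mkQ := by
      have h2 : W ≤ (Lt ⊔ Γ).map Lt.mkQ := Submodule.map_mono hV
      rw [Submodule.map_sup, Submodule.mkQ_map_self, bot_sup_eq] at h2
      exact h2
    exact (Submodule.finrank_mono h1).trans (Submodule.finrank_map_le Lt.mkQ Γ)
  -- the first component
  let θ1 : (Fin d → V) →ₗ[QB] ℂ :=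
    ∑ i, (LinearMap.mulLeft QB (x i)) ∘ₗ V.subtype ∘ₗ (LinearMap.proj i)
  have hθ1 : ∀ v, θ1 v = ∑ i, x i * (v i : ℂ) := by
    intro v
    simp only [θ1, LinearMap.sum_apply, LinearMap.comp_apply, LinearMap.mulLeft_apply,
      LinearMap.proj_apply, Submodule.subtype_apply]
  have hθ1Z : ∀ v, θ1 v ∈ Z := by
    intro v
    rw [hθ1]
    exact Submodule.sum_mem _ (fun i _ => hZ i _ (v i).2)
  let θ2 : (Fin d → V) →ₗ[QB] (Fin d → W) :=
    LinearMap.pi (fun i => (Lt.mkQ.submoduleMap V) ∘ₗ (LinearMap.proj i))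
  have hθ2 : ∀ v i, ((θ2 v i : W) : ℂ ⧸ Lt) = Lt.mkQ (v i : ℂ) := fun v i => rfl
  let Θ : (Fin d → V) →ₗ[QB] (Z × (Fin d → W)) := (θ1.codRestrict Z hθ1Z).prod θ2
  have hpk := pi_kernel Θ
  -- the kernel
  let K := LinearMap.ker Θ
  let b := Module.finBasis QB K
  have hKmem : ∀ k : K, θ1 (k : Fin d → V) = 0 ∧ ∀ i, Lt.mkQ (((k : Fin d → V) i : V) : ℂ) = 0 := by
    intro k
    have h1 : Θ (k : Fin d → V) = 0 := k.2
    have h2 : θ1.codRestrict Z hθ1Z (k : Fin d → V) = 0 := congrArg Prod.fst h1
    have h3 : θ2 (k : Fin d → V) = 0 := congrArg Prod.snd h1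
    refine ⟨congrArg (fun z : Z => (z : ℂ)) h2, fun i => ?_⟩
    rw [← hθ2, h3]
    rfl
  have hker : finrank QB K ≤ d * (d - 1) := by
    have h1 := hyperplane' (κ := Fin (finrank QB K)) d x
      (fun i j => (((b j : K) : Fin d → V) i : ℂ)) hx ?_ ?_ ?_
    · rwa [Fintype.card_fin] at h1
    · intro i j
      exact (Submodule.Quotient.mk_eq_zero Lt).mp ((hKmem (b j)).2 i)
    · intro j
      rw [← hθ1]
      exact (hKmem (b j)).1
    · have h2 : LinearIndependent QB (fun j => ((b j : K) : Fin d → V)) :=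
        b.linearIndependent.map' K.subtype K.ker_subtype
      let ι : (Fin d → V) →ₗ[QB] (Fin d → ℂ) := LinearMap.pi (fun i => V.subtype ∘ₗ LinearMap.proj i)
      have hι : LinearMap.ker ι = ⊥ := by
        rw [LinearMap.ker_eq_bot]
        intro u v huv
        funext i
        apply Subtype.ext
        exact congrFun huv i
      exact h2.map' ι hι
  have h5 : d * finrank QB W ≤ d * finrank QB Γ := Nat.mul_le_mul_left d hW
  have h6 : finrank QB (LinearMap.ker Θ) ≤ d * (d - 1) := hker
  omega

end Pool.Agent.TH379.PER
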