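import Pool.Agent.TH379.PER.OneVar2
import Pool.Agent.TH379.PER.Core
import Pool.Agent.H340R2.LW2

set_option autoImplicit false

/-!
# Polynomials in Euler's number and forms in periods of one variable
-/

namespace Pool.Agent.TH379.PER

open Module
open Pool.Agent.H301R2.SSE (QB mem_QB Lt Lt_rep Lt_mul Lt_alg Lt_log)
open scoped Pointwise

/-- all linear combinations, with algebraic coefficients, of integrals of rational functions of one
variable (`OneVar`), of logarithms of algebraic numbers and of the numbers `γ 0, γ 1, ...` -/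
noncomputable def Forms {g : ℕ} (γ : Fin g → ℂ) : Submodule (algebraicClosure ℚ ℂ) ℂ :=
  Submodule.span (algebraicClosure ℚ ℂ)
    ({z : ℂ | OneVar z} ∪ {z : ℂ | IsAlgebraic ℚ (Complex.exp z)} ∪ Set.range γ)

/-- all linear combinations, with algebraic coefficients, of the numbers `e ^ b`, `b ∈ B` -/
noncomputable def expSpan (B : Finset ℂ) : Submodule (algebraicClosure ℚ ℂ) ℂ :=
  Submodule.span (algebraicClosure ℚ ℂ) (Complex.exp '' (B : Set ℂ))

lemma Forms_le {g : ℕ} (γ : Fin g → ℂ) : Forms γ ≤ Lt ⊔ Submodule.span QB (Set.range γ) := by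
  refine Submodule.span_le.mpr ?_
  rintro z ((hz | hz) | hz)
  · exact Submodule.mem_sup_left (OneVar.mem_Lt hz)
  · exact Submodule.mem_sup_left (Lt_log hz)
  · exact Submodule.mem_sup_right (Submodule.subset_span hz)

instance (B : Finset ℂ) : FiniteDimensional QB (expSpan B) :=
  FiniteDimensional.span_of_finite QB (B.finite_toSet.image _)

lemma finrank_expSpan_le (B : Finset ℂ) : finrank QB (expSpan B) ≤ B.card := by
  classical
  have h1 := finrank_span_finset_le_card (R := QB) (B.image Complex.exp)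
  rw [Set.finrank, Finset.coe_image] at h1
  exact h1.trans Finset.card_image_le

lemma exp_indep (A : Finset ℂ) (hA : ∀ a ∈ A, IsAlgebraic ℚ a) :
    LinearIndependent QB (fun a : A => Complex.exp (a : ℂ)) := by
  rw [Fintype.linearIndependent_iff]
  intro c hc a
  have h1 := Pool.Agent.H340R2.LW.lindemann_weierstrass (ι := A) Finset.univ
    (fun a => (a : ℂ)) (fun a => ((c a : QB) : ℂ)) (fun a _ => hA a a.2)
    (fun a _ => mem_QB.mp (c a).2) (Subtype.val_injective.injOn) (by
      rw [← hc]
      exact Finset.sum_congr rfl (fun i _ => rfl)) a (Finset.mem_univ a)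
  exact Subtype.ext h1

/-- **Sets of exponents.** -/
theorem exp_ineq {g : ℕ} (γ : Fin g → ℂ) (A B : Finset ℂ) (hA : ∀ a ∈ A, IsAlgebraic ℚ a) :
    A.card * finrank QB ↥(expSpan B ⊓ Forms γ) ≤
      (A + B).card + A.card * (A.card - 1) + A.card * g := by
  classical
  have : FiniteDimensional QB ↥(Submodule.span QB (Set.range γ)) :=
    FiniteDimensional.span_of_finite QB (Set.finite_range _)
  have : FiniteDimensional QB ↥(expSpan B ⊓ Forms γ) :=
    Submodule.finiteDimensional_of_le inf_le_left
  have hΓ : finrank QB ↥(Submodule.span QB (Set.range γ)) ≤ g := by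
    have h1 := finrank_range_le_card (R := QB) γ
    rwa [Fintype.card_fin, Set.finrank] at h1
  have h1 := core (d := A.card) (fun i => Complex.exp ((A.equivFin.symm i : A) : ℂ))
    ((exp_indep A hA).comp _ A.equivFin.symm.injective) (expSpan B ⊓ Forms γ) (expSpan (A + B))
    (Submodule.span QB (Set.range γ)) ?_ (inf_le_right.trans (Forms_le γ))
  · have h2 := finrank_expSpan_le (A + B)
    have h3 := Nat.mul_le_mul_left A.card hΓ
    omega
  · intro i v hv
    have hv1 : v ∈ expSpan B := hv.1
    refine Submodule.span_induction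
      (p := fun v _ => Complex.exp ((A.equivFin.symm i : A) : ℂ) * v ∈ expSpan (A + B))
      ?_ ?_ ?_ ?_ hv1
    · rintro _ ⟨b, hb, rfl⟩
      rw [← Complex.exp_add]
      exact Submodule.subset_span ⟨_, Finset.add_mem_add (A.equivFin.symm i).2 hb, rfl⟩
    · rw [mul_zero]; exact Submodule.zero_mem _
    · intro v w _ _ h h'
      rw [mul_add]; exact Submodule.add_mem _ h h'
    · intro c v _ h
      rw [mul_smul_comm]
      exact Submodule.smul_mem _ c h

/-- the polynomials of degree at most `D` whose value at `e` is in `Forms γ` -/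
noncomputable def polySpace {g : ℕ} (γ : Fin g → ℂ) (D : ℕ) :
    Submodule (algebraicClosure ℚ ℂ) (Polynomial (algebraicClosure ℚ ℂ)) :=
  (Forms γ).comap (Polynomial.aeval (Complex.exp 1)).toLinearMap ⊓
    Polynomial.degreeLT (algebraicClosure ℚ ℂ) (D + 1)

lemma aeval_inj : Function.Injective
    (Polynomial.aeval (R := QB) (Complex.exp 1)).toLinearMap := by
  rw [← LinearMap.ker_eq_bot, LinearMap.ker_eq_bot']
  intro P hP
  by_contra hne
  have h1 : IsAlgebraic QB (Complex.exp 1) := ⟨P, hne, hP⟩
  have : Algebra.IsAlgebraic ℚ QB := algebraicClosure.isAlgebraic ℚ ℂ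
  exact Pool.Agent.H340R2.LW.transcendental_exp_one_complex (h1.restrictScalars ℚ)

/-- the integers below `n`, as complex numbers -/
noncomputable def NN (n : ℕ) : Finset ℂ := (Finset.range n).image (fun k : ℕ => (k : ℂ))

lemma card_NN (n : ℕ) : (NN n).card = n := by
  classical
  rw [NN, Finset.card_image_of_injective _ Nat.cast_injective, Finset.card_range]

lemma exp_nat (k : ℕ) : Complex.exp (k : ℂ) = Complex.exp 1 ^ k := by
  rw [← Complex.exp_nat_mul, mul_one]

lemma polySpace_map {g : ℕ} (γ : Fin g → ℂ) (D : ℕ) :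
    (polySpace γ D).map (Polynomial.aeval (Complex.exp 1)).toLinearMap ≤
      expSpan (NN (D + 1)) ⊓ Forms γ := by
  classical
  rintro _ ⟨P, hP, rfl⟩
  refine ⟨?_, hP.1⟩
  have h1 : P.degree < ((D + 1 : ℕ) : WithBot ℕ) := Polynomial.mem_degreeLT.mp hP.2
  show Polynomial.aeval (Complex.exp 1) P ∈ _
  have h2 : P.natDegree < D + 1 := by
    by_cases h0 : P = 0
    · subst h0; simp
    · exact (Polynomial.natDegree_lt_iff_degree_lt h0).mpr h1
  rw [Polynomial.aeval_eq_sum_range' h2]
  refine Submodule.sum_mem _ (fun k hk => Submodule.smul_mem _ _ ?_)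
  rw [← exp_nat]
  exact Submodule.subset_span ⟨_, Finset.mem_coe.mpr (Finset.mem_image_of_mem _ hk), rfl⟩

/-- **Polynomials in `e`.** -/
theorem poly_ineq {g : ℕ} (γ : Fin g → ℂ) (D d : ℕ) (hd : 1 ≤ d) :
    d * finrank QB ↥(polySpace γ D) ≤ D + d ^ 2 + d * g := by
  classical
  have : FiniteDimensional QB ↥(expSpan (NN (D + 1)) ⊓ Forms γ) :=
    Submodule.finiteDimensional_of_le inf_le_left
  have h1 : finrank QB ↥(polySpace γ D) ≤ finrank QB ↥(expSpan (NN (D + 1)) ⊓ Forms γ) := by
    rw [(Submodule.equivMapOfInjective _ aeval_inj (polySpace γ D)).finrank_eq]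
    exact Submodule.finrank_mono (polySpace_map γ D)
  have h2 := exp_ineq γ (NN d) (NN (D + 1)) (by
    intro a ha
    obtain ⟨k, _, rfl⟩ := Finset.mem_image.mp ha
    exact isAlgebraic_natCast k)
  have h3 : (NN d + NN (D + 1)).card ≤ D + d := by
    have h4 : NN d + NN (D + 1) ⊆ NN (D + d) := by
      intro z hz
      obtain ⟨u, hu, v, hv, rfl⟩ := Finset.mem_add.mp hz
      obtain ⟨k, hk, rfl⟩ := Finset.mem_image.mp hu
      obtain ⟨l, hl, rfl⟩ := Finset.mem_image.mp hv
      rw [Finset.mem_range] at hk hl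
      exact Finset.mem_image.mpr ⟨k + l, Finset.mem_range.mpr (by omega), by push_cast; ring⟩
    have h5 := Finset.card_le_card h4
    rwa [card_NN] at h5
  rw [card_NN] at h2
  have h6 : d * finrank QB ↥(polySpace γ D) ≤ d * finrank QB ↥(expSpan (NN (D + 1)) ⊓ Forms γ) :=
    Nat.mul_le_mul_left d h1
  obtain ⟨e, rfl⟩ : ∃ e, d = e + 1 := ⟨d - 1, by omega⟩
  have h7 : (e + 1) ^ 2 = (e + 1) * (e + 1 - 1) + (e + 1) := by
    rw [Nat.add_sub_cancel]; ring
  omega

end Pool.Agent.TH379.PER
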