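import Pool.Agent.TH379.PER.E

set_option autoImplicit false

/-!
# Counting powers of `e`
-/

namespace Pool.Agent.TH379.PER

open Module
open Pool.Agent.H301R2.SSE (QB mem_QB Lt Lt_rep Lt_mul Lt_alg Lt_log)
open scoped Pointwise

/-- optimisation in the basic inequality -/
lemma opt (s N g : ℕ) (h : ∀ d : ℕ, 1 ≤ d → d * s ≤ N + d ^ 2 + d * g) :
    (s : ℝ) ≤ 2 * Real.sqrt N + 1 + g := by
  rcases Nat.eq_zero_or_pos N with h0 | h0
  · subst h0
    have h1 := h 1 le_rfl
    have h2 : s ≤ 1 + g := by omega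
    have h3 : (s : ℝ) ≤ 1 + g := by exact_mod_cast h2
    simpa using h3
  · have hs : 0 < Real.sqrt N := Real.sqrt_pos.mpr (by exact_mod_cast h0)
    have hd1 : 1 ≤ ⌈Real.sqrt N⌉₊ := Nat.one_le_ceil_iff.mpr hs
    have h1 := h _ hd1
    set d := ⌈Real.sqrt N⌉₊ with hd
    have h2 : Real.sqrt N ≤ d := Nat.le_ceil _
    have h3 : (d : ℝ) < Real.sqrt N + 1 := Nat.ceil_lt_add_one hs.le
    have h4 : (d : ℝ) * s ≤ N + d ^ 2 + d * g := by exact_mod_cast h1
    have hd0 : (0 : ℝ) < d := by linarith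
    have h5 : (N : ℝ) ≤ Real.sqrt N * d := by
      calc (N : ℝ) = Real.sqrt N * Real.sqrt N := (Real.mul_self_sqrt (Nat.cast_nonneg N)).symm
        _ ≤ Real.sqrt N * d := mul_le_mul_of_nonneg_left h2 hs.le
    have h6 : (d : ℝ) * s ≤ d * (Real.sqrt N + d + g) := by nlinarith
    have h7 := le_of_mul_le_mul_left h6 hd0
    linarith

/-- the multiples `k * α`, `k < n` -/
noncomputable def MM (α : ℂ) (n : ℕ) : Finset ℂ :=
  (Finset.range n).image (fun k : ℕ => (k : ℂ) * α)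

lemma card_MM {α : ℂ} (hα : α ≠ 0) (n : ℕ) : (MM α n).card = n := by
  classical
  rw [MM, Finset.card_image_of_injective _ (fun a b h =>
    Nat.cast_injective (mul_right_cancel₀ hα h)), Finset.card_range]

lemma MM_alg {α : ℂ} (h : IsAlgebraic ℚ α) (n : ℕ) : ∀ a ∈ MM α n, IsAlgebraic ℚ a := by
  intro a ha
  obtain ⟨k, _, rfl⟩ := Finset.mem_image.mp ha
  exact (isAlgebraic_natCast k).mul h

/-- **Powers of `e ^ α`.** -/
theorem count_ineq {g : ℕ} (γ : Fin g → ℂ) {α : ℂ} (hα : IsAlgebraic ℚ α) (h0 : α ≠ 0) (N d : ℕ)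
    (hd : 1 ≤ d) :
    d * Set.ncard {n : ℕ | n ≤ N ∧ Complex.exp (n * α) ∈ Forms γ} ≤ N + d ^ 2 + d * g := by
  classical
  have : FiniteDimensional QB ↥(expSpan (MM α (N + 1)) ⊓ Forms γ) :=
    Submodule.finiteDimensional_of_le inf_le_left
  have h1 : Set.ncard {n : ℕ | n ≤ N ∧ Complex.exp (n * α) ∈ Forms γ} ≤
      finrank QB ↥(expSpan (MM α (N + 1)) ⊓ Forms γ) := by
    set T : Finset ℕ := (Finset.range (N + 1)).filter (fun n => Complex.exp (n * α) ∈ Forms γ)
      with hT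
    have hTS : {n : ℕ | n ≤ N ∧ Complex.exp (n * α) ∈ Forms γ} = (T : Set ℕ) := by
      ext n
      simp only [Set.mem_setOf_eq, hT, Finset.coe_filter, Finset.mem_range, Nat.lt_succ_iff]
    rw [hTS, Set.ncard_coe_finset]
    have hli := (exp_indep (MM α (N + 1)) (MM_alg hα _)).comp
      (fun n : T => (⟨(n : ℕ) * α, Finset.mem_image_of_mem _
        (Finset.mem_of_mem_filter _ n.2)⟩ : (MM α (N + 1) : Finset ℂ)))
      (by
        intro a b hab
        have := congrArg (fun z : (MM α (N + 1) : Finset ℂ) => (z : ℂ)) hab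
        exact Subtype.ext (Nat.cast_injective (mul_right_cancel₀ h0 this)))
    have hmem : ∀ n : T, Complex.exp ((n : ℕ) * α) ∈ expSpan (MM α (N + 1)) ⊓ Forms γ := by
      intro n
      refine ⟨Submodule.subset_span ⟨_, Finset.mem_coe.mpr (Finset.mem_image_of_mem _
        (Finset.mem_of_mem_filter _ n.2)), rfl⟩, (Finset.mem_filter.mp n.2).2⟩
    have hli2 : LinearIndependent QB (fun n : T =>
        (⟨Complex.exp ((n : ℕ) * α), hmem n⟩ : ↥(expSpan (MM α (N + 1)) ⊓ Forms γ))) := by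
      apply LinearIndependent.of_comp (expSpan (MM α (N + 1)) ⊓ Forms γ).subtype
      exact hli
    have h3 := hli2.fintype_card_le_finrank
    rwa [Fintype.card_coe] at h3
  have h2 := exp_ineq γ (MM α d) (MM α (N + 1)) (MM_alg hα d)
  have h3 : (MM α d + MM α (N + 1)).card ≤ N + d := by
    have h4 : MM α d + MM α (N + 1) ⊆ MM α (N + d) := by
      intro z hz
      obtain ⟨u, hu, v, hv, rfl⟩ := Finset.mem_add.mp hz
      obtain ⟨k, hk, rfl⟩ := Finset.mem_image.mp hu
      obtain ⟨l, hl, rfl⟩ := Finset.mem_image.mp hv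
      rw [Finset.mem_range] at hk hl
      exact Finset.mem_image.mpr ⟨k + l, Finset.mem_range.mpr (by omega), by push_cast; ring⟩
    have h5 := Finset.card_le_card h4
    rwa [card_MM h0] at h5
  rw [card_MM h0] at h2
  have h6 := Nat.mul_le_mul_left d h1
  obtain ⟨e, rfl⟩ : ∃ e, d = e + 1 := ⟨d - 1, by omega⟩
  have h7 : (e + 1) ^ 2 = (e + 1) * (e + 1 - 1) + (e + 1) := by
    rw [Nat.add_sub_cancel]; ring
  omega

end Pool.Agent.TH379.PER
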