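import Pool.Agent.H301R2.SSE.Forms

set_option autoImplicit false

/-!
# Integrals of rational functions of one variable are linear forms in logarithms
-/

namespace Pool.Agent.TH379.PER

open Set Complex MeasureTheory
open Pool.Agent.H301R2.SSE (QB mem_QB Lt Lt_rep Lt_mul Lt_alg Lt_log)

/-- `z` is the integral of a rational function with algebraic coefficients over a compact interval
with algebraic end points on which the denominator does not vanish. -/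
def OneVar (z : ℂ) : Prop :=
  ∃ (a b : ℝ) (P Q : Polynomial (algebraicClosure ℚ ℂ)), IsAlgebraic ℚ a ∧ IsAlgebraic ℚ b ∧
    a ≤ b ∧ (∀ x ∈ Icc a b, Polynomial.aeval (x : ℂ) Q ≠ 0) ∧
    z = ∫ x in a..b, Polynomial.aeval (x : ℂ) P / Polynomial.aeval (x : ℂ) Q

lemma cont_inv {ρ : ℂ} {x : ℝ} (hx : (x : ℂ) ≠ ρ) : ContinuousAt (fun t : ℝ => ((t : ℂ) - ρ)⁻¹) x := by
  refine ContinuousAt.inv₀ ?_ (sub_ne_zero.2 hx)
  exact (Complex.continuous_ofReal.sub continuous_const).continuousAt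

lemma exp_integral {a b : ℝ} (hab : a ≤ b) {ρ : ℂ} (hρ : ∀ x ∈ Icc a b, (x : ℂ) ≠ ρ) :
    cexp (∫ x in a..b, ((x : ℂ) - ρ)⁻¹) = (b - ρ) / (a - ρ) := by
  have hmeas : Measurable (fun t : ℝ => ((t : ℂ) - ρ)⁻¹) :=
    ((Complex.measurable_ofReal).sub_const ρ).inv
  have hii : ∀ x ∈ Icc a b, IntervalIntegrable (fun t : ℝ => ((t : ℂ) - ρ)⁻¹) volume a x := by
    intro x hx
    apply ContinuousOn.intervalIntegrable
    intro t ht
    rw [uIcc_of_le hx.1] at ht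
    exact (cont_inv (hρ t ⟨ht.1, ht.2.trans hx.2⟩)).continuousWithinAt
  have hF : ∀ x ∈ Icc a b, HasDerivAt (fun y : ℝ => ∫ t in a..y, ((t : ℂ) - ρ)⁻¹)
      ((x : ℂ) - ρ)⁻¹ x := fun x hx =>
    intervalIntegral.integral_hasDerivAt_right (hii x hx)
      hmeas.stronglyMeasurable.stronglyMeasurableAtFilter (cont_inv (hρ x hx))
  have hG : ∀ x ∈ Icc a b, HasDerivAt
      (fun y : ℝ => ((y : ℂ) - ρ) * cexp (-∫ t in a..y, ((t : ℂ) - ρ)⁻¹)) 0 x := by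
    intro x hx
    have h1 : HasDerivAt (fun y : ℝ => (y : ℂ) - ρ) 1 x := by
      have := (Complex.ofRealCLM.hasDerivAt (x := x)).sub_const ρ
      simpa using this
    have h2 := h1.mul ((hF x hx).neg.cexp)
    have h3 : ((x : ℂ) - ρ) * ((x : ℂ) - ρ)⁻¹ = 1 := mul_inv_cancel₀ (sub_ne_zero.2 (hρ x hx))
    refine HasDerivAt.congr_deriv h2 ?_
    show 1 * cexp (-∫ t in a..x, ((t : ℂ) - ρ)⁻¹) + ((x : ℂ) - ρ) *
      (cexp (-∫ t in a..x, ((t : ℂ) - ρ)⁻¹) * (-((x : ℂ) - ρ)⁻¹)) = 0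
    linear_combination -cexp (-∫ t in a..x, ((t : ℂ) - ρ)⁻¹) * h3
  have hconst := constant_of_has_deriv_right_zero
    (f := fun y : ℝ => ((y : ℂ) - ρ) * cexp (-∫ t in a..y, ((t : ℂ) - ρ)⁻¹)) (a := a) (b := b)
    (fun x hx => (hG x hx).continuousAt.continuousWithinAt)
    (fun x hx => (hG x ⟨hx.1, hx.2.le⟩).hasDerivWithinAt) b ⟨hab, le_rfl⟩
  simp only [intervalIntegral.integral_same, neg_zero, Complex.exp_zero, mul_one] at hconst
  have h3 : (a : ℂ) - ρ ≠ 0 := sub_ne_zero.2 (hρ a ⟨le_rfl, hab⟩)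
  rw [eq_div_iff h3, ← hconst, Complex.exp_neg]
  field_simp

lemma alg_ofReal {a : ℝ} (ha : IsAlgebraic ℚ a) : IsAlgebraic ℚ (a : ℂ) := ha.algebraMap (A := ℂ)

/-- the first power -/
lemma int_one {a b : ℝ} (hab : a ≤ b) (ha : IsAlgebraic ℚ a) (hb : IsAlgebraic ℚ b) {ρ : ℂ}
    (hρa : IsAlgebraic ℚ ρ) (hρ : ∀ x ∈ Icc a b, (x : ℂ) ≠ ρ) :
    ∫ x in a..b, ((x : ℂ) - ρ)⁻¹ ∈ Lt := by
  apply Lt_log
  rw [exp_integral hab hρ, div_eq_mul_inv]
  exact ((alg_ofReal hb).sub hρa).mul ((alg_ofReal ha).sub hρa).inv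

/-- higher powers -/
lemma int_pow {a b : ℝ} (hab : a ≤ b) (ha : IsAlgebraic ℚ a) (hb : IsAlgebraic ℚ b) {ρ : ℂ}
    (hρa : IsAlgebraic ℚ ρ) (hρ : ∀ x ∈ Icc a b, (x : ℂ) ≠ ρ) (n : ℕ) :
    ∫ x in a..b, (((x : ℂ) - ρ)⁻¹) ^ n ∈ Lt := by
  rcases n with _ | _ | n
  · simp only [pow_zero, intervalIntegral.integral_const]
    apply Lt_alg
    have : (b - a) • (1 : ℂ) = ((b - a : ℝ) : ℂ) := by simp
    rw [this]
    exact alg_ofReal (hb.sub ha)
  · simpa using int_one hab ha hb hρa hρ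
  · have hd : ∀ x ∈ uIcc a b, HasDerivAt (fun y : ℝ => -(((y : ℂ) - ρ)⁻¹) ^ (n + 1) / (n + 1 : ℂ))
        ((((x : ℂ) - ρ)⁻¹) ^ (n + 2)) x := by
      intro x hx
      rw [uIcc_of_le hab] at hx
      have h3 : (x : ℂ) - ρ ≠ 0 := sub_ne_zero.2 (hρ x hx)
      have h1 : HasDerivAt (fun y : ℝ => (y : ℂ) - ρ) 1 x := by
        have := (Complex.ofRealCLM.hasDerivAt (x := x)).sub_const ρ
        simpa using this
      have h2 := (((h1.inv h3).pow (n + 1)).neg).div_const ((n : ℂ) + 1)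
      have h4 : (n : ℂ) + 1 ≠ 0 := by exact_mod_cast Nat.succ_ne_zero n
      refine HasDerivAt.congr_deriv h2 ?_
      show -(((n + 1 : ℕ) : ℂ) * (((x : ℂ) - ρ)⁻¹) ^ (n + 1 - 1) * (-1 / ((x : ℂ) - ρ) ^ 2)) /
        ((n : ℂ) + 1) = (((x : ℂ) - ρ)⁻¹) ^ (n + 2)
      rw [Nat.add_sub_cancel, pow_add ((x : ℂ) - ρ)⁻¹ n 2]
      push_cast
      field_simp
    have hc : ContinuousOn (fun x : ℝ => (((x : ℂ) - ρ)⁻¹) ^ (n + 2)) (uIcc a b) := by
      intro x hx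
      rw [uIcc_of_le hab] at hx
      exact ((cont_inv (hρ x hx)).pow (n + 2)).continuousWithinAt
    have := intervalIntegral.integral_eq_sub_of_hasDerivAt hd hc.intervalIntegrable
    rw [this]
    apply Lt_alg
    have hn : IsAlgebraic ℚ ((n : ℂ) + 1) := by
      have := isAlgebraic_algebraMap (R := ℚ) (A := ℂ) ((n : ℚ) + 1)
      simpa using this
    have hk : ∀ y : ℝ, IsAlgebraic ℚ y →
        IsAlgebraic ℚ (-(((y : ℂ) - ρ)⁻¹) ^ (n + 1) / (n + 1 : ℂ)) := by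
      intro y hy
      rw [div_eq_mul_inv]
      exact (((((alg_ofReal hy).sub hρa).inv).pow (n + 1)).neg).mul hn.inv
    exact (hk b hb).sub (hk a ha)

/-- monomials -/
lemma int_mon {a b : ℝ} (ha : IsAlgebraic ℚ a) (hb : IsAlgebraic ℚ b) (n : ℕ) :
    ∫ x in a..b, (x : ℂ) ^ n ∈ Lt := by
  have h1 : ∫ x in a..b, (x : ℂ) ^ n = (((b ^ (n + 1) - a ^ (n + 1)) / (n + 1) : ℝ) : ℂ) := by
    rw [← integral_pow]
    have := intervalIntegral.integral_ofReal (a := a) (b := b) (μ := volume) (f := fun x : ℝ => x ^ n)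
    rw [← this]
    congr 1
    funext x
    push_cast
    rfl
  rw [h1]
  apply Lt_alg
  apply alg_ofReal
  have hn : IsAlgebraic ℚ ((n : ℝ) + 1) := by
    have := isAlgebraic_algebraMap (R := ℚ) (A := ℝ) ((n : ℚ) + 1)
    simpa using this
  rw [div_eq_mul_inv]
  exact ((hb.pow _).sub (ha.pow _)).mul hn.inv

end Pool.Agent.TH379.PER
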