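import Pool.Agent.TH379.PER.OneVar

set_option autoImplicit false

/-!
# Integrals of rational functions of one variable, part two: partial fractions
-/

namespace Pool.Agent.TH379.PER

open Set Complex MeasureTheory
open Pool.Agent.H301R2.SSE (QB mem_QB Lt Lt_rep Lt_mul Lt_alg Lt_log)

/-- the elementary fractions on `[a,b]` -/
def Gen (a b : ℝ) : Set (ℝ → ℂ) :=
  {f | ∃ k : ℕ, f = fun x : ℝ => (x : ℂ) ^ k} ∪
  {f | ∃ (ρ : ℂ) (n : ℕ), IsAlgebraic ℚ ρ ∧ (∀ x ∈ Icc a b, (x : ℂ) ≠ ρ) ∧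
    f = fun x : ℝ => (((x : ℂ) - ρ)⁻¹) ^ n}

/-- functions that agree on `[a,b]` with combinations of elementary fractions -/
def InS (a b : ℝ) (f : ℝ → ℂ) : Prop :=
  ∃ g ∈ Submodule.span QB (Gen a b), ∀ x ∈ Icc a b, f x = g x

lemma InS.congr {a b : ℝ} {f f' : ℝ → ℂ} (h : InS a b f) (hff : ∀ x ∈ Icc a b, f' x = f x) :
    InS a b f' := by
  obtain ⟨g, hg, h⟩ := h
  exact ⟨g, hg, fun x hx => (hff x hx).trans (h x hx)⟩

lemma InS.add {a b : ℝ} {f f' : ℝ → ℂ} (h : InS a b f) (h' : InS a b f') :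
    InS a b (fun x => f x + f' x) := by
  obtain ⟨g, hg, h⟩ := h
  obtain ⟨g', hg', h'⟩ := h'
  refine ⟨g + g', Submodule.add_mem _ hg hg', fun x hx => ?_⟩
  simp [h x hx, h' x hx]

lemma InS.mul {a b : ℝ} {f : ℝ → ℂ} (h : InS a b f) {c : ℂ} (hc : IsAlgebraic ℚ c) :
    InS a b (fun x => c * f x) := by
  obtain ⟨g, hg, h⟩ := h
  refine ⟨(⟨c, mem_QB.mpr hc⟩ : QB) • g, Submodule.smul_mem _ _ hg, fun x hx => ?_⟩
  show c * f x = _
  rw [h x hx]
  rfl

lemma InS.zero {a b : ℝ} : InS a b (fun _ => 0) := ⟨0, Submodule.zero_mem _, fun _ _ => rfl⟩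

lemma InS.pow {a b : ℝ} (k : ℕ) : InS a b (fun x => (x : ℂ) ^ k) :=
  ⟨_, Submodule.subset_span (Or.inl ⟨k, rfl⟩), fun _ _ => rfl⟩

lemma InS.inv {a b : ℝ} {ρ : ℂ} (n : ℕ) (hρ : IsAlgebraic ℚ ρ)
    (h : ∀ x ∈ Icc a b, (x : ℂ) ≠ ρ) : InS a b (fun x => (((x : ℂ) - ρ)⁻¹) ^ n) :=
  ⟨_, Submodule.subset_span (Or.inr ⟨ρ, n, hρ, h, rfl⟩), fun _ _ => rfl⟩

/-- multiplication by one more simple fraction -/
lemma InS.mulInv {a b : ℝ} {f : ℝ → ℂ} (hf : InS a b f) {σ : ℂ} (hσ : IsAlgebraic ℚ σ)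
    (hs : ∀ x ∈ Icc a b, (x : ℂ) ≠ σ) : InS a b (fun x => f x * ((x : ℂ) - σ)⁻¹) := by
  obtain ⟨g, hg, h⟩ := hf
  suffices H : InS a b (fun x => g x * ((x : ℂ) - σ)⁻¹) from
    H.congr (fun x hx => by rw [h x hx])
  clear h f
  refine Submodule.span_induction (p := fun g _ => InS a b (fun x => g x * ((x : ℂ) - σ)⁻¹))
    ?_ ?_ ?_ ?_ hg
  · rintro f (⟨k, rfl⟩ | ⟨ρ, n, hρ, hr, rfl⟩)
    · induction k with
      | zero =>
        exact (InS.inv 1 hσ hs).congr (fun x _ => by simp)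
      | succ k ih =>
        refine ((InS.pow k).add (ih.mul hσ)).congr (fun x hx => ?_)
        have h3 : (x : ℂ) - σ ≠ 0 := sub_ne_zero.2 (hs x hx)
        field_simp
        ring
    · by_cases hρσ : ρ = σ
      · subst hρσ
        exact (InS.inv (n + 1) hρ hr).congr (fun x _ => by rw [pow_succ])
      · induction n with
        | zero =>
          exact (InS.inv 1 hσ hs).congr (fun x _ => by simp)
        | succ n ih =>
          have hd : ρ - σ ≠ 0 := sub_ne_zero.2 hρσ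
          have hda : IsAlgebraic ℚ (ρ - σ)⁻¹ := (hρ.sub hσ).inv
          have hm : IsAlgebraic ℚ (-1 : ℂ) := isAlgebraic_one.neg
          refine ((((InS.inv (n + 1) hρ hr).add (ih.mul hm))).mul hda).congr (fun x hx => ?_)
          have h3 : (x : ℂ) - σ ≠ 0 := sub_ne_zero.2 (hs x hx)
          have h4 : (x : ℂ) - ρ ≠ 0 := sub_ne_zero.2 (hr x hx)
          have h5 : ((x : ℂ) - ρ)⁻¹ * ((x : ℂ) - σ)⁻¹ =
              (ρ - σ)⁻¹ * (((x : ℂ) - ρ)⁻¹ + (-1) * ((x : ℂ) - σ)⁻¹) := by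
            field_simp
            ring
          calc (((x : ℂ) - ρ)⁻¹) ^ (n + 1) * ((x : ℂ) - σ)⁻¹
              = (((x : ℂ) - ρ)⁻¹) ^ n * (((x : ℂ) - ρ)⁻¹ * ((x : ℂ) - σ)⁻¹) := by
                rw [pow_succ]; ring
            _ = (((x : ℂ) - ρ)⁻¹) ^ n *
                  ((ρ - σ)⁻¹ * (((x : ℂ) - ρ)⁻¹ + (-1) * ((x : ℂ) - σ)⁻¹)) := by rw [h5]
            _ = _ := by rw [pow_succ]; ring
  · exact InS.zero.congr (fun x _ => by simp)
  · intro f f' _ _ h h'
    exact (h.add h').congr (fun x _ => by simp [add_mul])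
  · intro c f _ h
    refine (h.mul (mem_QB.mp c.2)).congr (fun x _ => ?_)
    show ((c : ℂ) * f x) * _ = _
    ring

/-- functions in the class have integrals that are linear forms in logarithms -/
lemma InS.integral {a b : ℝ} (hab : a ≤ b) (ha : IsAlgebraic ℚ a) (hb : IsAlgebraic ℚ b)
    {f : ℝ → ℂ} (hf : InS a b f) : ∫ x in a..b, f x ∈ Lt := by
  obtain ⟨g, hg, h⟩ := hf
  have hfg : ∫ x in a..b, f x = ∫ x in a..b, g x := by
    apply intervalIntegral.integral_congr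
    intro x hx
    rw [uIcc_of_le hab] at hx
    exact h x hx
  rw [hfg]
  suffices H : IntervalIntegrable g volume a b ∧ ∫ x in a..b, g x ∈ Lt from H.2
  clear hfg h f
  refine Submodule.span_induction
    (p := fun g _ => IntervalIntegrable g volume a b ∧ ∫ x in a..b, g x ∈ Lt) ?_ ?_ ?_ ?_ hg
  · rintro f (⟨k, rfl⟩ | ⟨ρ, n, hρ, hr, rfl⟩)
    · exact ⟨(Continuous.intervalIntegrable (by fun_prop) _ _), int_mon ha hb k⟩
    · refine ⟨?_, int_pow hab ha hb hρ hr n⟩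
      apply ContinuousOn.intervalIntegrable
      intro x hx
      rw [uIcc_of_le hab] at hx
      exact ((cont_inv (hr x hx)).pow n).continuousWithinAt
  · refine ⟨intervalIntegrable_const, ?_⟩
    have : ∫ x in a..b, (0 : ℝ → ℂ) x = 0 := by simp
    rw [this]
    exact Submodule.zero_mem _
  · rintro f f' _ _ ⟨h1, h2⟩ ⟨h1', h2'⟩
    refine ⟨h1.add h1', ?_⟩
    have : ∫ x in a..b, (f + f') x = (∫ x in a..b, f x) + ∫ x in a..b, f' x :=
      intervalIntegral.integral_add h1 h1'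
    rw [this]
    exact Submodule.add_mem _ h2 h2'
  · rintro c f _ ⟨h1, h2⟩
    refine ⟨h1.const_mul (c : ℂ), ?_⟩
    have : ∫ x in a..b, (c • f) x = (c : ℂ) * ∫ x in a..b, f x :=
      intervalIntegral.integral_const_mul _ _
    rw [this]
    exact Lt_mul (mem_QB.mp c.2) h2

lemma InS.poly {a b : ℝ} (P : Polynomial QB) : InS a b (fun x => Polynomial.aeval (x : ℂ) P) := by
  induction P using Polynomial.induction_on' with
  | add p q hp hq => exact (hp.add hq).congr (fun x _ => by simp)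
  | monomial n c =>
    refine ((InS.pow n).mul (mem_QB.mp c.2)).congr (fun x _ => ?_)
    rw [Polynomial.aeval_monomial]
    rfl

lemma InS.multiset {a b : ℝ} {f : ℝ → ℂ} (hf : InS a b f) (s : Multiset ℂ)
    (hs : ∀ r ∈ s, IsAlgebraic ℚ r ∧ ∀ x ∈ Icc a b, (x : ℂ) ≠ r) :
    InS a b (fun x => f x * ((s.map (fun r => (x : ℂ) - r)).prod)⁻¹) := by
  induction s using Multiset.induction_on with
  | empty => exact hf.congr (fun x _ => by simp)
  | cons r s ih =>
    have h1 := ih (fun r' hr' => hs r' (Multiset.mem_cons_of_mem hr'))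
    have h2 := hs r (Multiset.mem_cons_self r s)
    refine (h1.mulInv h2.1 h2.2).congr (fun x _ => ?_)
    rw [Multiset.map_cons, Multiset.prod_cons, _root_.mul_inv]
    ring

/-- **One variable periods are linear forms in logarithms of algebraic numbers.** -/
theorem OneVar.mem_Lt {z : ℂ} (hz : OneVar z) : z ∈ Lt := by
  obtain ⟨a, b, P, Q, ha, hb, hab, hQ, rfl⟩ := hz
  have hQ0 : Q ≠ 0 := by
    rintro rfl
    exact hQ a ⟨le_rfl, hab⟩ (by simp)
  have hspl : (Q.map (algebraMap QB ℂ)).Splits := IsAlgClosed.splits _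
  have key := fun x : ℝ => hspl.aeval_eq_prod_aroots (x : ℂ)
  have hroots : ∀ r ∈ Q.aroots ℂ, IsAlgebraic ℚ r ∧ ∀ x ∈ Icc a b, (x : ℂ) ≠ r := by
    intro r hr
    rw [Polynomial.mem_aroots] at hr
    have h1 : IsAlgebraic QB r := ⟨Q, hQ0, hr.2⟩
    have : Algebra.IsAlgebraic ℚ QB := algebraicClosure.isAlgebraic ℚ ℂ
    refine ⟨h1.restrictScalars ℚ, ?_⟩
    rintro x hx rfl
    exact hQ x hx hr.2
  have h1 := ((InS.poly (a := a) (b := b) P).multiset _ hroots).mul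
    (c := ((Q.leadingCoeff : QB) : ℂ)⁻¹) (mem_QB.mp (Q.leadingCoeff).2).inv
  apply InS.integral hab ha hb
  refine h1.congr (fun x hx => ?_)
  rw [key x, div_eq_mul_inv, mul_inv]
  have : (algebraMap QB ℂ) Q.leadingCoeff = ((Q.leadingCoeff : QB) : ℂ) := rfl
  rw [this]
  ring

end Pool.Agent.TH379.PER
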