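import Pool.Agent.TH379.PER.E2

set_option autoImplicit false

/-!
# Polynomials in several numbers and forms in periods of one variable
-/

namespace Pool.Agent.TH379.PER

open Module
open Pool.Agent.H301R2.SSE (QB mem_QB Lt Lt_rep Lt_mul Lt_alg Lt_log)
open Pool.Agent.W254.HP

/-- the basic inequality for spaces -/
theorem core_space (X V Z Γ : Submodule QB ℂ) [FiniteDimensional QB X]
    [FiniteDimensional QB V] [FiniteDimensional QB Z] [FiniteDimensional QB Γ]
    (hZ : ∀ x ∈ X, ∀ v ∈ V, x * v ∈ Z) (hV : V ≤ Lt ⊔ Γ) :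
    finrank QB X * finrank QB V ≤
      finrank QB Z + finrank QB X * (finrank QB X - 1) + finrank QB X * finrank QB Γ := by
  have b := Module.finBasis QB X
  exact core (fun i => ((b i : X) : ℂ)) (b.linearIndependent.map' X.subtype X.ker_subtype) V Z Γ
    (fun i v hv => hZ _ (b i).2 v hv) hV

lemma boxV_mono {n : ℕ} (t : Fin n → ℂ) {M N : ℕ} (h : M ≤ N) : boxV t M ≤ boxV t N := by
  unfold boxV
  refine Submodule.span_le.mpr ?_
  rintro _ ⟨e, rfl⟩
  exact mon_mem t N (fun i => (e i : ℕ)) (fun i => (e i).isLt.trans_le h)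

theorem box_ineq {g n : ℕ} (γ : Fin g → ℂ) (t : Fin n → ℂ) (D E : ℕ) :
    finrank QB (boxV t E) * finrank QB ↥(boxV t D ⊓ Forms γ) ≤
      finrank QB (boxV t (D + E)) + finrank QB (boxV t E) * (finrank QB (boxV t E) - 1) +
        finrank QB (boxV t E) * g := by
  have : FiniteDimensional QB ↥(Submodule.span QB (Set.range γ)) :=
    FiniteDimensional.span_of_finite QB (Set.finite_range _)
  have : FiniteDimensional QB ↥(boxV t D ⊓ Forms γ) :=
    Submodule.finiteDimensional_of_le inf_le_left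
  have hΓ : finrank QB ↥(Submodule.span QB (Set.range γ)) ≤ g := by
    have h1 := finrank_range_le_card (R := QB) γ
    rwa [Fintype.card_fin, Set.finrank] at h1
  have h1 := core_space (boxV t E) (boxV t D ⊓ Forms γ) (boxV t (D + E))
    (Submodule.span QB (Set.range γ))
    (fun x hx v hv => box_mul t E D (D + E) (by omega) x hx v hv.1)
    (inf_le_right.trans (Forms_le γ))
  have h2 := Nat.mul_le_mul_left (finrank QB (boxV t E)) hΓ
  omega

/-- a good choice of the auxiliary degree -/
lemma exists_E {n : ℕ} (t : Fin n → ℂ) {D : ℕ} (hD : 1 ≤ D) :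
    ∃ E, 1 ≤ E ∧ E ≤ D ∧ Real.sqrt (finrank QB (boxV t D)) ≤ finrank QB (boxV t E) ∧
      (finrank QB (boxV t E) : ℝ) ≤ 2 ^ n * Real.sqrt (finrank QB (boxV t D)) := by
  classical
  set r := finrank QB (boxV t D) with hr
  have hr1 : 1 ≤ r := finrank_boxV_pos t hD
  have hs1 : (1 : ℝ) ≤ Real.sqrt r := by
    rw [Real.one_le_sqrt]
    exact_mod_cast hr1
  have hex : ∃ E, 1 ≤ E ∧ Real.sqrt r ≤ finrank QB (boxV t E) := by
    refine ⟨D, hD, ?_⟩
    rw [← hr, Real.sqrt_le_left (Nat.cast_nonneg _)]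
    have : (1 : ℝ) ≤ r := by exact_mod_cast hr1
    nlinarith
  have hspec := Nat.find_spec hex
  have hmin := fun m hm => Nat.find_min hex (m := m) hm
  set E := Nat.find hex with hE
  refine ⟨E, hspec.1, ?_, hspec.2, ?_⟩
  · apply Nat.find_min' hex
    refine ⟨hD, ?_⟩
    rw [← hr, Real.sqrt_le_left (Nat.cast_nonneg _)]
    have : (1 : ℝ) ≤ r := by exact_mod_cast hr1
    nlinarith
  · rcases Nat.lt_or_ge E 2 with h2 | h2
    · have hE1 : E = 1 := by have := hspec.1; omega
      rw [hE1]
      have h3 := finrank_boxV_le t 1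
      rw [one_pow] at h3
      have h4 : (finrank QB (boxV t 1) : ℝ) ≤ 1 := by exact_mod_cast h3
      have h5 : (1 : ℝ) ≤ 2 ^ n := one_le_pow₀ (by norm_num)
      nlinarith
    · have h3 := hmin (E - 1) (by omega)
      rw [not_and, not_le] at h3
      have h4 := h3 (by omega)
      have h5 : finrank QB (boxV t E) ≤ 2 ^ n * finrank QB (boxV t (E - 1)) :=
        (Submodule.finrank_mono (boxV_mono t (by omega))).trans (boxV_double t (E - 1))
      have h6 : (finrank QB (boxV t E) : ℝ) ≤ 2 ^ n * finrank QB (boxV t (E - 1)) := by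
        exact_mod_cast h5
      have h7 : (0 : ℝ) < 2 ^ n := by positivity
      nlinarith

/-- **Polynomials in several numbers.** -/
theorem box_main {g n : ℕ} (γ : Fin g → ℂ) (t : Fin n → ℂ) (D : ℕ) :
    (finrank QB ↥(boxV t D ⊓ Forms γ) : ℝ) ≤
      2 ^ (n + 1) * Real.sqrt (finrank QB (boxV t D)) + g := by
  rcases Nat.eq_zero_or_pos D with h0 | hD
  · subst h0
    rcases Nat.eq_zero_or_pos n with hn | hn
    · subst hn
      have h1 : finrank QB ↥(boxV t 0 ⊓ Forms γ) ≤ finrank QB (boxV t 0) :=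
        Submodule.finrank_mono inf_le_left
      have h2 := finrank_boxV_le t 0
      rw [pow_zero] at h2
      have h3 : (finrank QB ↥(boxV t 0 ⊓ Forms γ) : ℝ) ≤ finrank QB (boxV t 0) := by
        exact_mod_cast h1
      have h4 : (finrank QB (boxV t 0) : ℝ) ≤ Real.sqrt (finrank QB (boxV t 0)) := by
        interval_cases finrank QB (boxV t 0) <;> simp
      have h5 : (0 : ℝ) ≤ g := Nat.cast_nonneg g
      have h6 := Real.sqrt_nonneg (finrank QB (boxV t 0) : ℝ)
      rw [zero_add, pow_one]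
      linarith
    · have h1 : boxV t 0 = ⊥ := by
        unfold boxV
        rw [Submodule.span_eq_bot]
        rintro _ ⟨e, rfl⟩
        exact (e ⟨0, hn⟩).elim0
      have h2 : finrank QB ↥(boxV t 0 ⊓ Forms γ) = 0 := by
        rw [h1, bot_inf_eq, finrank_bot]
      rw [h2, Nat.cast_zero]
      have h5 : (0 : ℝ) ≤ g := Nat.cast_nonneg g
      positivity
  · obtain ⟨E, hE1, hED, hlo, hhi⟩ := exists_E t hD
    have h1 := box_ineq γ t D E
    have h2 : finrank QB (boxV t (D + E)) ≤ 2 ^ n * finrank QB (boxV t D) :=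
      (Submodule.finrank_mono (boxV_mono t (by omega))).trans (boxV_double t D)
    have hm : 1 ≤ finrank QB (boxV t E) := finrank_boxV_pos t hE1
    have hr : 1 ≤ finrank QB (boxV t D) := finrank_boxV_pos t hD
    set m := finrank QB (boxV t E) with hmdef
    set r := finrank QB (boxV t D) with hrdef
    set s := finrank QB ↥(boxV t D ⊓ Forms γ) with hsdef
    have h3 : m * s ≤ 2 ^ n * r + m * (m - 1) + m * g := by omega
    have h4 : (m : ℝ) * s ≤ 2 ^ n * r + m * (m - 1) + m * g := by
      have h5 : ((m * s : ℕ) : ℝ) ≤ ((2 ^ n * r + m * (m - 1) + m * g : ℕ) : ℝ) := by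
        exact_mod_cast h3
      push_cast [Nat.cast_sub hm] at h5
      exact h5
    have hm0 : (0 : ℝ) < m := by exact_mod_cast hm
    have hq : (r : ℝ) = Real.sqrt r * Real.sqrt r := (Real.mul_self_sqrt (Nat.cast_nonneg r)).symm
    have hq0 := Real.sqrt_nonneg (r : ℝ)
    have h2n : (0 : ℝ) < 2 ^ n := by positivity
    have h6 : (2 : ℝ) ^ n * r ≤ m * (2 ^ n * Real.sqrt r) := by
      calc (2 : ℝ) ^ n * r = (2 ^ n * Real.sqrt r) * Real.sqrt r := by
            rw [mul_assoc, ← hq]
        _ ≤ (2 ^ n * Real.sqrt r) * m :=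
            mul_le_mul_of_nonneg_left hlo (by positivity)
        _ = _ := by ring
    have h7 : (m : ℝ) * s ≤ m * (2 ^ n * Real.sqrt r + (m - 1) + g) := by nlinarith
    have h8 := le_of_mul_le_mul_left h7 hm0
    rw [pow_succ]
    nlinarith

/-- powers of a transcendental number are linearly independent -/
lemma pow_indep {t : ℂ} (ht : Transcendental ℚ t) (N : ℕ) :
    LinearIndependent QB (fun k : Fin N => t ^ (k : ℕ)) := by
  classical
  rw [Fintype.linearIndependent_iff]
  intro c hc k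
  set P : Polynomial QB := ∑ k : Fin N, Polynomial.monomial (k : ℕ) (c k) with hPdef
  have hP : Polynomial.aeval t P = 0 := by
    rw [hPdef, map_sum, ← hc]
    apply Finset.sum_congr rfl
    intro i _
    rw [Polynomial.aeval_monomial]
    rfl
  have h0 : P = 0 := by
    by_contra hne
    have h1 : IsAlgebraic QB t := ⟨P, hne, hP⟩
    have : Algebra.IsAlgebraic ℚ QB := algebraicClosure.isAlgebraic ℚ ℂ
    exact ht (h1.restrictScalars ℚ)
  have h1 : P.coeff (k : ℕ) = c k := by
    rw [hPdef, Polynomial.finsetSum_coeff, Finset.sum_eq_single k]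
    · rw [Polynomial.coeff_monomial, if_pos rfl]
    · intro j _ hj
      rw [Polynomial.coeff_monomial, if_neg (fun h => hj (Fin.ext h))]
    · intro h; exact absurd (Finset.mem_univ _) h
  rw [← h1, h0, Polynomial.coeff_zero]

/-- the span of `1, t, ..., t ^ (N - 1)` -/
noncomputable def powSpan (t : ℂ) (N : ℕ) : Submodule (algebraicClosure ℚ ℂ) ℂ :=
  Submodule.span (algebraicClosure ℚ ℂ) (Set.range (fun k : Fin N => t ^ (k : ℕ)))

instance (t : ℂ) (N : ℕ) : FiniteDimensional QB (powSpan t N) :=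
  FiniteDimensional.span_of_finite QB (Set.finite_range _)

lemma pow_mem {t : ℂ} {N k : ℕ} (hk : k < N) : t ^ k ∈ powSpan t N :=
  Submodule.subset_span ⟨⟨k, hk⟩, rfl⟩

lemma finrank_powSpan_le (t : ℂ) (N : ℕ) : finrank QB (powSpan t N) ≤ N := by
  refine (finrank_range_le_card _).trans ?_
  rw [Fintype.card_fin]

theorem pow_ineq {g : ℕ} (γ : Fin g → ℂ) {t : ℂ} (ht : Transcendental ℚ t) (N d : ℕ)
    (hd : 1 ≤ d) :
    d * finrank QB ↥(powSpan t (N + 1) ⊓ Forms γ) ≤ N + d ^ 2 + d * g := by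
  have : FiniteDimensional QB ↥(Submodule.span QB (Set.range γ)) :=
    FiniteDimensional.span_of_finite QB (Set.finite_range _)
  have : FiniteDimensional QB ↥(powSpan t (N + 1) ⊓ Forms γ) :=
    Submodule.finiteDimensional_of_le inf_le_left
  have hΓ : finrank QB ↥(Submodule.span QB (Set.range γ)) ≤ g := by
    have h1 := finrank_range_le_card (R := QB) γ
    rwa [Fintype.card_fin, Set.finrank] at h1
  have h1 := core (d := d) (fun i => t ^ (i : ℕ)) (pow_indep ht d)
    (powSpan t (N + 1) ⊓ Forms γ) (powSpan t (N + d))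
    (Submodule.span QB (Set.range γ)) ?_ (inf_le_right.trans (Forms_le γ))
  · have h2 := finrank_powSpan_le t (N + d)
    have h3 := Nat.mul_le_mul_left d hΓ
    obtain ⟨e, rfl⟩ : ∃ e, d = e + 1 := ⟨d - 1, by omega⟩
    have h7 : (e + 1) ^ 2 = (e + 1) * (e + 1 - 1) + (e + 1) := by
      rw [Nat.add_sub_cancel]; ring
    omega
  · intro i v hv
    have hv1 : v ∈ powSpan t (N + 1) := hv.1
    refine Submodule.span_induction
      (p := fun v _ => t ^ (i : ℕ) * v ∈ powSpan t (N + d)) ?_ ?_ ?_ ?_ hv1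
    · rintro _ ⟨k, rfl⟩
      have h1 := i.isLt
      have h2 := k.isLt
      show t ^ (i : ℕ) * t ^ (k : ℕ) ∈ _
      rw [← pow_add]
      exact pow_mem (by omega)
    · rw [mul_zero]; exact Submodule.zero_mem _
    · intro v w _ _ h h'
      rw [mul_add]; exact Submodule.add_mem _ h h'
    · intro c v _ h
      rw [mul_smul_comm]
      exact Submodule.smul_mem _ c h

/-- counting powers in `Forms γ` -/
theorem pow_count {g : ℕ} (γ : Fin g → ℂ) {t : ℂ} (ht : Transcendental ℚ t) (N : ℕ) :
    Set.ncard {n : ℕ | n ≤ N ∧ t ^ n ∈ Forms γ} ≤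
      finrank QB ↥(powSpan t (N + 1) ⊓ Forms γ) := by
  classical
  have : FiniteDimensional QB ↥(powSpan t (N + 1) ⊓ Forms γ) :=
    Submodule.finiteDimensional_of_le inf_le_left
  set T : Finset ℕ := (Finset.range (N + 1)).filter (fun n => t ^ n ∈ Forms γ) with hT
  have hTS : {n : ℕ | n ≤ N ∧ t ^ n ∈ Forms γ} = (T : Set ℕ) := by
    ext n
    simp only [Set.mem_setOf_eq, hT, Finset.coe_filter, Finset.mem_range, Nat.lt_succ_iff]
  rw [hTS, Set.ncard_coe_finset]
  have hlt : ∀ n : T, (n : ℕ) < N + 1 := fun n =>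
    Finset.mem_range.mp (Finset.mem_of_mem_filter _ n.2)
  have hli := (pow_indep ht (N + 1)).comp (fun n : T => (⟨(n : ℕ), hlt n⟩ : Fin (N + 1)))
    (by
      intro a b hab
      exact Subtype.ext (congrArg (fun z : Fin (N + 1) => (z : ℕ)) hab))
  have hmem : ∀ n : T, t ^ (n : ℕ) ∈ powSpan t (N + 1) ⊓ Forms γ := fun n =>
    ⟨pow_mem (hlt n), (Finset.mem_filter.mp n.2).2⟩
  have hli2 : LinearIndependent QB (fun n : T =>
      (⟨t ^ (n : ℕ), hmem n⟩ : ↥(powSpan t (N + 1) ⊓ Forms γ))) := by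
    apply LinearIndependent.of_comp (powSpan t (N + 1) ⊓ Forms γ).subtype
    exact hli
  have h3 := hli2.fintype_card_le_finrank
  rwa [Fintype.card_coe] at h3

/-- if one of the numbers is transcendental the dimension is at least `D` -/
lemma le_finrank_boxV {n : ℕ} (t : Fin n → ℂ) (i₀ : Fin n) (h : Transcendental ℚ (t i₀)) (D : ℕ) :
    D ≤ finrank QB (boxV t D) := by
  classical
  rcases Nat.eq_zero_or_pos D with h0 | hD
  · omega
  have hmem : ∀ k : Fin D, t i₀ ^ (k : ℕ) ∈ boxV t D := by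
    intro k
    have h1 := mon_mem t D (fun i => if i = i₀ then (k : ℕ) else 0) (fun i => by
      split
      · exact k.isLt
      · exact hD)
    have h2 : ∏ i, t i ^ (if i = i₀ then (k : ℕ) else 0) = t i₀ ^ (k : ℕ) := by
      rw [Finset.prod_eq_single i₀]
      · rw [if_pos rfl]
      · intro j _ hj
        rw [if_neg hj, pow_zero]
      · intro h; exact absurd (Finset.mem_univ _) h
    rwa [h2] at h1
  have hli2 : LinearIndependent QB (fun k : Fin D => (⟨t i₀ ^ (k : ℕ), hmem k⟩ : boxV t D)) := by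
    apply LinearIndependent.of_comp (boxV t D).subtype
    exact pow_indep h D
  have h3 := hli2.fintype_card_le_finrank
  rwa [Fintype.card_fin] at h3

end Pool.Agent.TH379.PER
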